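import Pool.Agent.helper35.DR.SpecA

set_option autoImplicit false

namespace Pool.Agent.DR

open Pool.Agent.helper58.DC Pool.Agent.DI

theorem CHA_nrm_le {Γ : Type} [Group Γ] (C : Finset (Subgroup Γ)) (Q : Subgroup Γ) (hQ : Q ∈ C) :
    nrm C ≤ nz Q := by
  unfold nrm
  exact iInf₂_le Q hQ

theorem CHA_nz_bot {Γ : Type} [Group Γ] : nz (⊥ : Subgroup Γ) = ⊤ :=
  Subgroup.normalizer_eq_top (⊥ : Subgroup Γ)

theorem CHA_le_nz {Γ : Type} [Group Γ] (H K : Subgroup Γ)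
    (h : ∀ x ∈ H, ∀ k ∈ K, x * k * x⁻¹ ∈ K) : H ≤ nz K := by
  intro x hx
  rw [Subgroup.mem_normalizer_iff]
  intro k
  refine ⟨fun hk => h x hx k hk, fun hk => ?_⟩
  have := h x⁻¹ (inv_mem hx) _ hk
  have e : x⁻¹ * (x * k * x⁻¹) * x⁻¹⁻¹ = k := by group
  rwa [e] at this

/-- a term of a sum vanishes if `h` vanishes on the normalisers. -/
theorem CHA_zero {Γ : Type} [Group Γ] (p : ℕ) (L R : Subgroup Γ)
    (h : Subgroup Γ → ℤ) (hz : ∀ N : Subgroup Γ, N ≤ nz R → h N = 0) :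
    cSum p L R ⊤ h = 0 := by
  unfold cSum
  apply finsum_mem_eq_zero_of_forall_eq_zero
  intro C hC
  have hC' : PCh p L R C := hC
  rw [hz (⊤ ⊓ nrm C) (inf_le_right.trans (CHA_nrm_le C R hC'.mem)), mul_zero]

theorem CHA (hA3 : A3_stmt) (hA10 : A10_stmt) (hCHC : CHC_stmt) : CHA_stmt := by
  intro Γ _ _ p _ G₁ G₂ h hn1 hn2 hle hcomm hchief hh hR
  have key := hA10 Γ p G₁ G₂ ⊥ ⊤ h hn1 IsPGroup.of_bot (bot_inf_eq _)
  rw [bot_sup_eq, inf_eq_right.2 hle] at key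
  rw [key, CHA_nz_bot, inf_top_eq]
  have hzero : ∑ᶠ Q' ∈ {Q' : Subgroup Γ | ⊥ < Q' ∧ Q' ≤ G₂ ∧ IsPGroup p Q' ∧ Q' ⊓ G₁ = ⊥},
      cSum p G₂ Q' ⊤ h = 0 := by
    apply finsum_mem_eq_zero_of_forall_eq_zero
    rintro R ⟨hR0, hRG, hRp, hRi⟩
    by_cases hs : R ⊔ G₁ = G₂
    · rw [hA3 Γ p G₂ R ⊤ h]
      have h1 := hCHC Γ p G₁ R ⊤ h hn1 hRp hRi
      rw [hs, top_inf_eq] at h1
      rw [h1]
      exact hR R hRp hR0.ne' hRG hRi hs
    · apply CHA_zero
      intro N hN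
      apply hh
      intro hNG
      -- `K = R ⊔ G₁` is normal
      have hK2 : R ⊔ G₁ ≤ G₂ := sup_le hRG hle
      have hnz : nz (R ⊔ G₁) = ⊤ := by
        rw [← top_le_iff, ← hNG]
        refine sup_le ?_ ?_
        · intro x hx
          have hxR := hN hx
          rw [Subgroup.mem_normalizer_iff_map_conj_eq] at hxR ⊢
          rw [Subgroup.map_sup, hxR]
          congr 1
          have := hn1
          exact Subgroup.Normal.map_conj_eq _ x
        · refine CHA_le_nz G₂ (R ⊔ G₁) ?_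
          intro x hx k hk
          have h1 : x * k * x⁻¹ * k⁻¹ ∈ R ⊔ G₁ :=
            (le_sup_right : G₁ ≤ R ⊔ G₁) (hcomm x hx k (hK2 hk))
          have h2 := mul_mem h1 hk
          rwa [inv_mul_cancel_right] at h2
      have hnorm : (R ⊔ G₁).Normal := Subgroup.normalizer_eq_top_iff.1 hnz
      rcases hchief (R ⊔ G₁) hnorm le_sup_right hK2 with h1 | h1
      · have : R ≤ G₁ := by rw [← h1]; exact le_sup_left
        rw [inf_eq_left.2 this] at hRi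
        exact hR0.ne' hRi
      · exact hs h1
  rw [hzero, sub_zero]

end Pool.Agent.DR
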