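import Pool.Agent.helper35.DR.SpecA

set_option autoImplicit false

namespace Pool.Agent.DR

open Pool.Agent.helper58.DC Pool.Agent.DI

theorem ECD : ECD_stmt := by
  intro Γ Q _ _ _ q S N
  set K : Subgroup Γ := S ⊓ N.comap q with hK
  let f : K →* Q := q.comp K.subtype
  have h1 : Nat.card K = Nat.card f.ker * f.ker.index := (Subgroup.card_mul_index f.ker).symm
  have h2 : f.ker.index = Nat.card (S.map q ⊓ N : Subgroup Q) := by
    rw [Subgroup.index_ker]
    have : f.range = S.map q ⊓ N := by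
      ext y
      constructor
      · rintro ⟨⟨x, hx⟩, rfl⟩
        exact ⟨⟨x, hx.1, rfl⟩, hx.2⟩
      · rintro ⟨⟨x, hx, rfl⟩, hy⟩
        exact ⟨⟨x, ⟨hx, hy⟩⟩, rfl⟩
    rw [this]
  have h3 : Nat.card f.ker = Nat.card (S ⊓ q.ker : Subgroup Γ) := by
    have e : f.ker.map K.subtype = S ⊓ q.ker := by
      ext x
      constructor
      · rintro ⟨⟨y, hy⟩, hyk, rfl⟩
        exact ⟨hy.1, hyk⟩
      · rintro ⟨hx, hxk⟩
        have hxk' : q x = 1 := hxk
        refine ⟨⟨x, ⟨hx, ?_⟩⟩, hxk, rfl⟩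
        show q x ∈ N
        rw [hxk']
        exact one_mem N
    rw [← e]
    exact Nat.card_congr (f.ker.equivMapOfInjective K.subtype K.subtype_injective).toEquiv
  rw [h1, h2, h3]

end Pool.Agent.DR
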