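import Pool.Agent.helper35.DR.SpecR
import Pool.Agent.helper35.DR.SpecK

set_option autoImplicit false

namespace Pool.Agent.DR

open Pool.Agent.helper58.DC Pool.Agent.DI

/-- the isomorphism `R × N' ≃ R ⊔ N'` -/
theorem RDP_iso {Γ : Type} [Group Γ] (R N' : Subgroup Γ)
    (hc : ∀ x ∈ R, ∀ y ∈ N', x * y = y * x) (hd : R ⊓ N' = ⊥) :
    ∃ e : (R × N') ≃* ↥(R ⊔ N'), ∀ x : R × N', ((e x : ↥(R ⊔ N')) : Γ) = x.1 * x.2 := by
  have hcomm : ∀ (m : R) (n : N'), Commute (R.subtype m) (N'.subtype n) :=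
    fun m n => hc m.1 m.2 n.1 n.2
  have hinj : Function.Injective (MonoidHom.noncommCoprod R.subtype N'.subtype hcomm) := by
    rw [MonoidHom.noncommCoprod_injective]
    refine ⟨R.subtype_injective, N'.subtype_injective, ?_⟩
    rw [Subgroup.range_subtype, Subgroup.range_subtype, disjoint_iff]
    exact hd
  have hr : (MonoidHom.noncommCoprod R.subtype N'.subtype hcomm).range = R ⊔ N' := by
    rw [MonoidHom.noncommCoprod_range, Subgroup.range_subtype, Subgroup.range_subtype]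
  refine ⟨(MonoidHom.ofInjective hinj).trans (MulEquiv.subgroupCongr hr), ?_⟩
  intro x
  rfl

theorem RDP_one_mem (R : Type) [Group R] : (1 : R → R → ℂˣ) ∈ Coc R := one_mem _

/-- linear characters are irreducible. -/
theorem RDP_lin (hKLN : KLN_stmt) (hTI : TI_stmt) {R : Type} [Group R] [Finite R]
    (l : R → ℂˣ) (hl : ∀ x y, l (x * y) = l x * l y) : (fun x => (l x : ℂ)) ∈ Irr R := by
  obtain ⟨h1, -, h3, -⟩ := hKLN R ⊤ inferInstance
  rw [← hTI]
  refine (h3 _ 1 (h1 1 (one_mem _) l ?_ _ (fun _ _ => rfl) ?_)).1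
  · intro n _ n' _
    simp [hl]
  · intro n hn
    exact absurd (Subgroup.mem_top n) hn

/-- the irreducible characters of a commutative group are linear. -/
theorem RDP_comm (hKLN : KLN_stmt) (hKCM : KCM_stmt) (hTI : TI_stmt) {R : Type} [Group R]
    [Finite R] (hR : ∀ x y : R, x * y = y * x) (α : R → ℂ) (hα : α ∈ Irr R) :
    ∃ l : R → ℂˣ, (∀ x y, l (x * y) = l x * l y) ∧ ∀ x, α x = l x := by
  obtain ⟨-, -, -, h4⟩ := hKLN R ⊤ inferInstance
  rw [← hTI] at hα
  obtain ⟨k, hk⟩ := h4 α hα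
  obtain ⟨-, b, hb1, hb2⟩ := hKCM R ⊤ 1 (one_mem _) (fun x _ y _ => ⟨rfl, hR x y⟩) α k hk
  refine ⟨b, fun x y => ?_, fun x => hb1 x trivial⟩
  have := hb2 x trivial y trivial
  simpa using this.symm

theorem RDP (hKLN : KLN_stmt) (hKCM : KCM_stmt) (hTI : TI_stmt) (hIF : IF_stmt)
    (hIRT : IRT_stmt) (hIRP2 : IRP2_stmt) (hIRC2 : IRC2_stmt) : RDP_stmt := by
  classical
  intro Γ _ _ R N' hR hc hd
  obtain ⟨e, he⟩ := RDP_iso R N' hc hd
  have hR' : ∀ x y : R, x * y = y * x := fun x y => Subtype.ext (hR x.1 x.2 y.1 y.2)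
  refine ⟨?_, ?_, ?_⟩
  · intro l hl θ hθ
    have h1 := RDP_lin hKLN hTI l hl
    have h2 := hIRP2 R N' _ h1 _ hθ.2
    have h3 := hIRT _ _ e.symm _ h2
    let φ : Γ → ℂ := fun g => if hg : g ∈ R ⊔ N' then
      (l (e.symm ⟨g, hg⟩).1 : ℂ) * θ (e.symm ⟨g, hg⟩).2 else 0
    refine ⟨φ, ⟨?_, ?_⟩, ?_⟩
    · intro g hg
      exact dif_neg hg
    · have : (fun h : ↥(R ⊔ N') => φ (h : Γ)) = fun h => (l (e.symm h).1 : ℂ) * θ (e.symm h).2 := by
        funext h
        show (if hg : (h : Γ) ∈ R ⊔ N' then _ else _) = _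
        rw [dif_pos h.2]
      rw [this]
      exact h3
    · intro x y hy
      have hxy : (x : Γ) * y ∈ R ⊔ N' := by
        have := (e (x, ⟨y, hy⟩)).2
        rw [he] at this
        exact this
      have hes : e.symm ⟨(x : Γ) * y, hxy⟩ = (x, ⟨y, hy⟩) := by
        rw [MulEquiv.symm_apply_eq]
        exact Subtype.ext (he (x, ⟨y, hy⟩)).symm
      show (if hg : (x : Γ) * y ∈ R ⊔ N' then _ else _) = _
      rw [dif_pos hxy, hes]
  · intro φ hφ
    have h1 := hIRT _ _ e _ hφ.2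
    obtain ⟨α, hα, β, hβ, hαβ⟩ := hIRC2 R N' _ h1
    obtain ⟨l, hl, hlα⟩ := RDP_comm hKLN hKCM hTI hR' α hα
    let θ : Γ → ℂ := fun g => if hg : g ∈ N' then β ⟨g, hg⟩ else 0
    refine ⟨l, hl, θ, ⟨fun g hg => dif_neg hg, ?_⟩, ?_⟩
    · have : (fun h : N' => θ (h : Γ)) = β := by
        funext h
        show (if hg : (h : Γ) ∈ N' then _ else _) = _
        rw [dif_pos h.2]
      rw [this]
      exact hβ
    · intro x y hy
      have h2 := congrFun hαβ (x, ⟨y, hy⟩)
      simp only at h2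
      rw [he] at h2
      show φ ((x : Γ) * y) = l x * (if hg : y ∈ N' then β ⟨y, hg⟩ else 0)
      rw [dif_pos hy, ← hlα]
      exact h2
  · intro l l' hl hl' θ hθ θ' hθ' h
    have hone : ∀ m : R → ℂˣ, (∀ x y, m (x * y) = m x * m y) → m 1 = 1 := by
      intro m hm
      have := hm 1 1
      rw [mul_one] at this
      exact mul_left_cancel (a := m 1) (by rw [mul_one]; exact this.symm)
    have hθθ : θ = θ' := by
      funext y
      by_cases hy : y ∈ N'
      · have := h 1 y hy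
        rw [hone l hl, hone l' hl', Units.val_one, one_mul, one_mul] at this
        exact this
      · rw [hθ.1 y hy, hθ'.1 y hy]
    refine ⟨?_, hθθ⟩
    funext x
    obtain ⟨n, hn, hn1⟩ := ((hIF Γ N').2 θ hθ).1
    have h1 := h x 1 (one_mem _)
    rw [← hθθ, hn1] at h1
    have h2 : (n : ℂ) ≠ 0 := by exact_mod_cast hn.ne'
    exact Units.ext (mul_right_cancel₀ h2 h1)

end Pool.Agent.DR
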