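import Pool.Agent.helper35.DR.SpecZ

set_option autoImplicit false

namespace Pool.Agent.DR

open Pool.Agent.helper58.DC Pool.Agent.DI

/-- a nontrivial finite commutative `r`-group maps onto a given group of order `r`. -/
theorem ZNC_quot (r : ℕ) (hr : r.Prime) (V K N : Type) [Group V] [Group K] [Group N] [Finite K]
    (hK : ∃ j, Nat.card K = r ^ j) (hcomm : ∀ a b : K, a * b = b * a) (hN : Nat.card N = r)
    (g : V →* K) (hg : g ≠ 1) : ∃ θ : V →* N, θ ≠ 1 := by
  classical
  have : Fact r.Prime := ⟨hr⟩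
  let _ : CommGroup K := { (inferInstance : Group K) with mul_comm := hcomm }
  -- the range
  obtain ⟨j, hj⟩ := hK
  have hdvd : Nat.card g.range ∣ r ^ j := hj ▸ Subgroup.card_subgroup_dvd_card g.range
  obtain ⟨i, -, hi⟩ := (Nat.dvd_prime_pow hr).1 hdvd
  have hi0 : i ≠ 0 := by
    rintro rfl
    apply hg
    rw [pow_zero, Subgroup.card_eq_one] at hi
    ext v
    have : g v ∈ g.range := ⟨v, rfl⟩
    rw [hi, Subgroup.mem_bot] at this
    rw [this]; rfl
  obtain ⟨l, rfl⟩ := Nat.exists_eq_succ_of_ne_zero hi0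
  obtain ⟨M, hM⟩ := Sylow.exists_subgroup_card_pow_prime (G := g.range) r (n := l)
    (by rw [hi]; exact pow_dvd_pow _ (Nat.le_succ l))
  have : M.Normal := inferInstance
  have hq : Nat.card (g.range ⧸ M) = r := by
    have h1 := Subgroup.card_eq_card_quotient_mul_card_subgroup M
    rw [hi, hM, pow_succ'] at h1
    exact (Nat.eq_of_mul_eq_mul_right (pow_pos hr.pos l) h1).symm
  let e : (g.range ⧸ M) ≃* N := mulEquivOfPrimeCardEq (p := r) hq hN
  refine ⟨e.toMonoidHom.comp ((QuotientGroup.mk' M).comp g.rangeRestrict), ?_⟩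
  intro h
  have hsub : Subsingleton N := by
    refine ⟨fun a b => ?_⟩
    have key : ∀ c : N, c = 1 := by
      intro c
      obtain ⟨v, hv⟩ : ∃ v, (e.toMonoidHom.comp ((QuotientGroup.mk' M).comp g.rangeRestrict)) v = c := by
        have hs : Function.Surjective
            (e.toMonoidHom.comp ((QuotientGroup.mk' M).comp g.rangeRestrict)) :=
          e.surjective.comp ((QuotientGroup.mk'_surjective M).comp g.rangeRestrict_surjective)
        exact hs c
      rw [← hv, h]; rfl
    rw [key a, key b]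
  have : Nat.card N ≤ 1 := Finite.card_le_one_iff_subsingleton.2 hsub
  rw [hN] at this
  exact absurd hr.two_le (by omega)

theorem ZNC (hGCC : GCC_stmt) (hZFN : ZFN_stmt) (hZNB : ZNB_stmt) : ZNC_stmt := by
  intro A _ _ N hN hc hn k
  obtain ⟨hprime, -, hV⟩ := hGCC A N hN hc
  obtain ⟨r, hr⟩ : ∃ r, r = Nat.card N := ⟨_, rfl⟩
  rw [← hr] at hprime ⊢
  intro x hx y
  have := hN.nor
  -- a complement
  have hne : Nonempty {V : Subgroup A // IsCpl N V} := by
    by_contra h
    rw [not_nonempty_iff] at h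
    have : ncpl N = 0 := by unfold ncpl; exact Nat.card_of_isEmpty
    omega
  obtain ⟨V, hVc⟩ := hne
  have hVN : Nat.card (V →* N) = 1 := by rw [← hV V hVc, hn]
  have htriv : ∀ θ : V →* N, θ = 1 := by
    have hfin : Finite (V →* N) := Nat.finite_of_card_ne_zero (by omega)
    have : Subsingleton (V →* N) := Finite.card_le_one_iff_subsingleton.1 hVN.le
    intro θ
    exact Subsingleton.elim _ _
  have h1n : 1 ≤ r ^ k := Nat.one_le_pow _ _ hprime.pos
  obtain ⟨-, -, hf⟩ := hZNB A N hN hc (r ^ k) h1n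
  obtain ⟨f, hf1, hf2⟩ := hf x hx
  obtain ⟨-, hZfin, hCfin, -, hker, hkc, hpow, -⟩ := hZFN A (r ^ k) h1n
  obtain ⟨j, hj⟩ := hpow r hprime ⟨k, rfl⟩
  -- the homomorphism on `V`
  let g : V →* (prC A (r ^ k)).ker :=
    { toFun := fun v => f ⟨1, v⟩
      map_one' := by
        show f ⟨1, ((1 : V) : A)⟩ = 1
        exact map_one f
      map_mul' := by
        intro v w
        show f ⟨1, ((v * w : V) : A)⟩ = f ⟨1, v⟩ * f ⟨1, w⟩
        have e : ((⟨1, (v : A)⟩ : Cv A (r ^ k)) * ⟨1, (w : A)⟩) =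
            ⟨uB (r ^ k) (v : A) (w : A), 1⟩ * ⟨1, ((v * w : V) : A)⟩ := by
          refine Cv.ext ?_ ?_
          · simp only [Cv.mul_z, uB_one_left, mul_one, one_mul]
          · simp only [Cv.mul_a, one_mul, Subgroup.coe_mul]
        rw [← map_mul, e, map_mul]
        have h1 : f ⟨uB (r ^ k) (v : A) (w : A), 1⟩ = 1 := by
          apply hf2
          show (1 : A) ∈ N
          exact one_mem N
        rw [h1, one_mul] }
  have hg : g = 1 := by
    by_contra hg
    have hKfin : Finite (prC A (r ^ k)).ker := inferInstance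
    obtain ⟨θ, hθ⟩ := ZNC_quot r hprime V (prC A (r ^ k)).ker N ⟨j, by rw [hker, hj]⟩
      (fun a b => Subtype.ext (hkc a.1 a.2 b.1)) hr.symm g hg
    exact hθ (htriv θ)
  have hfy : f y = 1 := by
    have hy : y.a ∈ V ⊔ N := by rw [hVc.2]; trivial
    rw [Subgroup.mem_sup_of_normal_right] at hy
    obtain ⟨v, hv, m, hm, hvm⟩ := hy
    have e : y = ⟨1, v⟩ * ((⟨1, v⟩ : Cv A (r ^ k))⁻¹ * y) := by group
    rw [e, map_mul]
    have h1 : f ⟨1, v⟩ = 1 := by
      have := DFunLike.congr_fun hg ⟨v, hv⟩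
      exact this
    have h2 : f ((⟨1, v⟩ : Cv A (r ^ k))⁻¹ * y) = 1 := by
      apply hf2
      show v⁻¹ * y.a ∈ N
      rw [← hvm]
      simpa using hm
    rw [h1, h2, one_mul]
  have h3 := hf1 y
  rw [hfy] at h3
  have h4 : y * x * y⁻¹ * x⁻¹ = 1 := h3.symm
  have h5 : y * x * y⁻¹ = x := mul_inv_eq_one.1 h4
  have h6 : y * x = x * y := mul_inv_eq_iff_eq_mul.1 h5
  exact h6.symm

end Pool.Agent.DR
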